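import Pool.Agent.R444.GQ.All

/-!
# Maximal p-th moment of a centred Gaussian quadratic form (MP_c22ba5)

For all `n ≥ 1` and all real `p > 2`, the maximum of `E|∑ a_i (g_i² - 1)|^p` over real vectors `a`
with `∑ a_i² = 1` is `E|g² - 1|^p`, the value at the coordinate vectors.

Idea of the proof. For `p ≥ 4` put `f = |s|^p`; for `2 < p < 4` write `|s|^p` as a positive mixture
of the functions `f(x s)`, `f'' = log (1 + s²)`. For such `f` one shows that every maximizer of
`E f(S_a)` on a sphere is a coordinate vector. With chi-square laws with `e` degrees of freedom
the first order conditions read `E ψ(S) = μ` with two extra degrees of freedom on one value, and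
integration by parts turns them into `E w(S) = 0` with two extra degrees of freedom on each value
of any set of at least two distinct values (`ψ = f''`, `w = f'''`). Log-concavity of the chi-square
densities (a sign-change argument) excludes three distinct nonzero values; the asymmetry of the
densities about the mode excludes two values of the same sign, and, with the second order
condition, all multiplicities; the remaining case `α(g₁² - 1) - β(g₂² - 1)` is a two-dimensional
inequality in polar coordinates.
-/

set_option autoImplicit false

open MeasureTheory ProbabilityTheory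

namespace Pool.Agent.Results.MP_c22ba5_pr.MaxMoment

/-- **MP_c22ba5, Q1.** `M_{n,p} = E|g² - 1|^p` for every `n ≥ 1` and every real `p > 2`. -/
theorem result : ∀ n : ℕ, 1 ≤ n → ∀ p : ℝ, 2 < p →
    IsGreatest {m : ℝ | ∃ a : Fin n → ℝ, ∑ i, a i ^ 2 = 1 ∧
      m = ∫ x, |∑ i, a i * (x i ^ 2 - 1)| ^ p ∂(Measure.pi (fun _ : Fin n => gaussianReal 0 1))}
      (∫ x, |x ^ 2 - 1| ^ p ∂(gaussianReal 0 1)) :=
  Pool.Agent.R444.GQ.final

end Pool.Agent.Results.MP_c22ba5_pr.MaxMoment
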